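import Pool.Agent.Lib.MP_e6abdd_an.Main
import Pool.Agent.Lib.MP_e6abdd_an.Exist
import Pool.Agent.Lib.MP_e6abdd_an.Unique

/-!
The limiting distribution of `n ^ (1/4) * b n (√x)` for the Radchenko-Viazovska interpolation
basis exists, has finite moments, and is the unit mass at zero.
-/

open MeasureTheory Filter Topology
open scoped FourierTransform BoundedContinuousFunction

theorem Pool.Agent.Results.MP_e6abdd_an.DiracLimit.result :
    ∃ b : ℕ → SchwartzMap ℝ ℝ,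
      (∀ (n : ℕ) (f : SchwartzMap ℝ ℝ), f = b n ↔
        ((∀ x : ℝ, f (-x) = f x) ∧
          (∀ ξ : ℝ, 𝓕 (fun x : ℝ => ((f x : ℝ) : ℂ)) ξ = ((f ξ : ℝ) : ℂ)) ∧
          ∀ m : ℕ, f (√(m : ℝ)) = if n = m then 1 else 0)) ∧
      ∀ x : ℝ, 0 < x → ∃ μ : Measure ℝ, IsProbabilityMeasure μ ∧ μ = Measure.dirac 0 ∧
        (∀ k : ℝ, 1 ≤ k → Integrable (fun t : ℝ => |t| ^ k) μ) ∧
        ∀ g : ℝ →ᵇ ℝ, Tendsto
          (fun N : ℕ => (∑ n ∈ Finset.range (N + 1), g ((n : ℝ) ^ (1 / 4 : ℝ) * b n (√x))) /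
            ((N : ℝ) + 1)) atTop (𝓝 (∫ t, g t ∂μ)) := by
  obtain ⟨b, he, hf, hb⟩ := Pool.Agent.Lib.MP_e6abdd_an.exists_basis
  refine ⟨b, fun n f => ⟨fun h => h ▸ ⟨he n, hf n, hb n⟩, fun ⟨h1, h2, h3⟩ => ?_⟩, fun x hx =>
    ⟨Measure.dirac 0, inferInstance, rfl, fun k _ => integrable_dirac (by simp), fun g => ?_⟩⟩
  · have key : ∀ P : ℕ → SchwartzMap ℝ ℝ → Prop, (∀ k, P k (b k)) → P n f →
        ∀ k, P k (Function.update b n f k) := fun P hP hn k => by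
      by_cases h : k = n
      · subst h; simpa using hn
      · simpa [h] using hP k
    have := Pool.Agent.Lib.MP_e6abdd_an.basis_unique (Function.update b n f) b
      (key (fun _ f => ∀ x, f (-x) = f x) he h1)
      (key (fun _ f => ∀ ξ : ℝ, 𝓕 (fun x : ℝ => ((f x : ℝ) : ℂ)) ξ = ((f ξ : ℝ) : ℂ)) hf h2)
      (key (fun k f => ∀ m : ℕ, f (√(m : ℝ)) = if k = m then 1 else 0) hb h3) he hf hb
    simpa using congrFun this n
  · rw [integral_dirac]
    exact Pool.Agent.Lib.MP_e6abdd_an.main b he hf hb hx g
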