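import Pool.Agent.Lib.MP_e6abdd_an.H2Mom
import Pool.Agent.Lib.MP_e6abdd_an.Exist
import Pool.Agent.Lib.MP_e6abdd_an.Unique

/-!
For the Radchenko-Viazovska interpolation basis and a non-integer `x > 0`, the empirical absolute
moments of order `k` of `n ^ (1/4) * b n (√x)` tend to zero for `k < 2`, stay between two positive
constants for `k = 2` and tend to infinity for `k > 2`.
-/

open MeasureTheory Filter Topology
open scoped FourierTransform

theorem Pool.Agent.Results.MP_e6abdd_an.MomentThreshold.result :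
    ∃ b : ℕ → SchwartzMap ℝ ℝ,
      (∀ (n : ℕ) (f : SchwartzMap ℝ ℝ), f = b n ↔
        ((∀ x : ℝ, f (-x) = f x) ∧
          (∀ ξ : ℝ, 𝓕 (fun x : ℝ => ((f x : ℝ) : ℂ)) ξ = ((f ξ : ℝ) : ℂ)) ∧
          ∀ m : ℕ, f (√(m : ℝ)) = if n = m then 1 else 0)) ∧
      ∀ x : ℝ, 0 < x → (∀ m : ℤ, x ≠ m) → ∀ k : ℝ, 0 < k → ∀ M : ℕ → ℝ,
        (∀ N : ℕ, M N = (∑ n ∈ Finset.range (N + 1),
          |(n : ℝ) ^ (1 / 4 : ℝ) * b n (√x)| ^ k) / ((N : ℝ) + 1)) →
        (k < 2 → Tendsto M atTop (𝓝 0)) ∧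
          (k = 2 → ∃ c C : ℝ, 0 < c ∧ ∀ᶠ N : ℕ in atTop, c ≤ M N ∧ M N ≤ C) ∧
          (2 < k → Tendsto M atTop atTop) := by
  obtain ⟨b, he, hf, hb⟩ := Pool.Agent.Lib.MP_e6abdd_an.exists_basis
  refine ⟨b, fun n f => ⟨fun h => h ▸ ⟨he n, hf n, hb n⟩, fun ⟨h1, h2, h3⟩ => ?_⟩,
    fun x hx hI k hk M hM => ?_⟩
  · have key : ∀ P : ℕ → SchwartzMap ℝ ℝ → Prop, (∀ k, P k (b k)) → P n f →
        ∀ k, P k (Function.update b n f k) := fun P hP hn k => by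
      by_cases h : k = n
      · subst h; simpa using hn
      · simpa [h] using hP k
    have := Pool.Agent.Lib.MP_e6abdd_an.basis_unique (Function.update b n f) b
      (key (fun _ f => ∀ x, f (-x) = f x) he h1)
      (key (fun _ f => ∀ ξ : ℝ, 𝓕 (fun x : ℝ => ((f x : ℝ) : ℂ)) ξ = ((f ξ : ℝ) : ℂ)) hf h2)
      (key (fun k f => ∀ m : ℕ, f (√(m : ℝ)) = if k = m then 1 else 0) hb h3) he hf hb
    simpa using congrFun this n
  · exact Pool.Agent.Lib.MP_e6abdd_an.h2_main b he hf hb hx hI hk hM
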