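import Pool.Agent.Lib.MP_e6abdd_an.H8Fin
import Pool.Agent.Lib.MP_e6abdd_an.Exist
import Pool.Agent.Lib.MP_e6abdd_an.Unique

/-!
For the Radchenko-Viazovska interpolation basis and a non-integer `x > 0`, the values
`n ^ (1/4) * (log n) ^ α * b n (√x)` converge in distribution together with their second moments
exactly when `α < 0`, and the limit is then the unit mass at zero.
-/

open MeasureTheory Filter Topology
open scoped FourierTransform BoundedContinuousFunction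

theorem Pool.Agent.Results.MP_e6abdd_an.SecondMoment.result :
    ∃ b : ℕ → SchwartzMap ℝ ℝ,
      (∀ (n : ℕ) (f : SchwartzMap ℝ ℝ), f = b n ↔
        ((∀ x : ℝ, f (-x) = f x) ∧
          (∀ ξ : ℝ, 𝓕 (fun x : ℝ => ((f x : ℝ) : ℂ)) ξ = ((f ξ : ℝ) : ℂ)) ∧
          ∀ m : ℕ, f (√(m : ℝ)) = if n = m then 1 else 0)) ∧
      ∀ x : ℝ, 0 < x → (∀ k : ℤ, x ≠ k) → ∀ (α : ℝ) (c : ℕ → ℝ),
        (∀ n : ℕ, c n = (n : ℝ) ^ (1 / 4 : ℝ) * Real.log n ^ α * b n (√x)) →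
        ∀ μ : Measure ℝ, IsProbabilityMeasure μ →
          ((Integrable (fun t : ℝ => t ^ 2) μ ∧
            (∀ g : ℝ →ᵇ ℝ, Tendsto (fun N : ℕ => (∑ n ∈ Finset.Icc 2 N, g (c n)) / ((N : ℝ) - 1))
              atTop (𝓝 (∫ t, g t ∂μ))) ∧
            Tendsto (fun N : ℕ => (∑ n ∈ Finset.Icc 2 N, c n ^ 2) / ((N : ℝ) - 1))
              atTop (𝓝 (∫ t, t ^ 2 ∂μ))) ↔ (α < 0 ∧ μ = Measure.dirac 0)) := by
  obtain ⟨b, he, hf, hb⟩ := Pool.Agent.Lib.MP_e6abdd_an.exists_basis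
  refine ⟨b, fun n f => ⟨fun h => h ▸ ⟨he n, hf n, hb n⟩, fun ⟨h1, h2, h3⟩ => ?_⟩,
    fun x hx hI α c hc μ hμ => ?_⟩
  · have key : ∀ P : ℕ → SchwartzMap ℝ ℝ → Prop, (∀ k, P k (b k)) → P n f →
        ∀ k, P k (Function.update b n f k) := fun P hP hn k => by
      by_cases h : k = n
      · subst h; simpa using hn
      · simpa [h] using hP k
    have := Pool.Agent.Lib.MP_e6abdd_an.basis_unique (Function.update b n f) b
      (key (fun _ f => ∀ x, f (-x) = f x) he h1)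
      (key (fun _ f => ∀ ξ : ℝ, 𝓕 (fun x : ℝ => ((f x : ℝ) : ℂ)) ξ = ((f ξ : ℝ) : ℂ)) hf h2)
      (key (fun k f => ∀ m : ℕ, f (√(m : ℝ)) = if k = m then 1 else 0) hb h3) he hf hb
    simpa using congrFun this n
  · simp only [hc]
    exact Pool.Agent.Lib.MP_e6abdd_an.h8_main b he hf hb hx hI α μ
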